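import Pool.Agent.H468.ISG.Sol
import Pool.Graph.R_seed8.Y682.Glob

/-!
# Descent by a 2-isogeny: the cocycles with values in the kernel and the Tate-Shafarevich group
-/

set_option autoImplicit false
set_option linter.all false

open scoped Classical

namespace Pool.Agent.H468.ISG

open WeierstrassCurve
open Pool.Agent.TH841.SH.D (Pt act Gal Coch IsCoc IsCob LocTriv cob shaCoc Sha IsShaCoc)
open Pool.Agent.R432 (KDat NH isoH isoH_act isoH_ker isoH_zero isoH_some bc cz act_zero'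
  act_inj pt_congr iC)
open Pool.Agent.H487.K.S9 (iCCQ iSQ mkQ mkQ_surj mkQ_add iSQ_mk iSQ_comp)
open Pool.Agent.H757_X15.DD (Fm Crit)
open Pool.Agent.H487.I.C3 (InV LN)

/-- the isogeny `W → W'`, `W : y² = x³ + 14 D x² + 625 D² x`, `W' : y² = x³ - 7 D x² - 144 D² x` -/
abbrev HD (W W' : WeierstrassCurve ℚ) (D : ℤ) : Prop :=
  KDat W W' (14 * (D : ℚ)) (625 * (D : ℚ) ^ 2) (-7 * (D : ℚ)) (-144 * (D : ℚ) ^ 2) 2

section

variable {k : Type} [Field k] [CharZero k] {W W' : WeierstrassCurve k} {a b a' b' u : k}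

lemma lc_app (x : AlgebraicClosure k) : IsLocallyConstant (fun σ : Gal k => σ x) := by
  rw [IsLocallyConstant.iff_exists_open]
  intro σ
  have hx : IsIntegral k x := Algebra.IsIntegral.isIntegral x
  have : FiniteDimensional k (IntermediateField.adjoin k {x}) :=
    IntermediateField.adjoin.finiteDimensional hx
  refine ⟨(fun τ => σ⁻¹ * τ) ⁻¹'
    ((IntermediateField.adjoin k {x}).fixingSubgroup : Set (Gal k)),
    (IntermediateField.fixingSubgroup_isOpen _).preimage (continuous_const_mul _), ?_, ?_⟩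
  · show σ⁻¹ * σ ∈ (IntermediateField.adjoin k {x}).fixingSubgroup
    rw [inv_mul_cancel]
    exact one_mem _
  · intro τ hτ
    have h1 : σ⁻¹ * τ ∈ (IntermediateField.adjoin k {x}).fixingSubgroup := hτ
    rw [IntermediateField.mem_fixingSubgroup_iff] at h1
    have h2 := h1 x (IntermediateField.mem_adjoin_simple_self k x)
    rw [AlgEquiv.mul_apply] at h2
    have h3 := congrArg σ h2
    rw [← AlgEquiv.mul_apply, mul_inv_cancel, AlgEquiv.one_apply] at h3
    exact h3

/-- the cocycle of the character of `s` -/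
noncomputable def chi (h : KDat W W' a b a' b' u) (s : AlgebraicClosure k) : Coch W :=
  fun σ => if σ s = s then 0 else T0 h (AlgebraicClosure k)

lemma two_T0 (h : KDat W W' a b a' b' u) (L : Type) [Field L] [Algebra k L] :
    T0 h L + T0 h L = 0 := by
  have : CharZero L := cz k L
  have h1 : -(T0 h L) = T0 h L := by
    refine (Affine.Point.neg_some (ns0 h L)).trans (pt_congr _ _ _ rfl ?_)
    have a1 : (W.baseChange L).toAffine.a₁ = 0 := by rw [h.w L]; rfl
    have a3 : (W.baseChange L).toAffine.a₃ = 0 := by rw [h.w L]; rfl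
    rw [Affine.negY, a1, a3]
    ring
  nth_rw 1 [← h1]
  exact neg_add_cancel _

lemma pm_of {s : AlgebraicClosure k} {e : k} (hs : s ^ 2 = algebraMap k _ e) (σ : Gal k) :
    σ s = s ∨ σ s = -s := by
  have h1 : (σ s) ^ 2 = s ^ 2 := by rw [← map_pow, hs, AlgEquiv.commutes]
  exact sq_eq_sq_iff_eq_or_eq_neg.1 h1

lemma s_ne {K : Type} [Field K] [Algebra k K] {s : K} {e : k} (he : e ≠ 0)
    (hs : s ^ 2 = algebraMap k K e) : s ≠ 0 := by
  rintro rfl
  apply (map_ne_zero (algebraMap k K)).2 he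
  rw [← hs]
  ring

lemma neg_ne' {K : Type} [Field K] [CharZero K] {s : K} (hs : s ≠ 0) : -s ≠ s :=
  fun h0 => hs (self_eq_neg.1 h0.symm)

lemma chi_coc (h : KDat W W' a b a' b' u) {s : AlgebraicClosure k} {e : k} (he : e ≠ 0)
    (hs : s ^ 2 = algebraMap k _ e) : IsCoc W (chi h s) := by
  have : CharZero (AlgebraicClosure k) := cz k _
  have hn : -s ≠ s := neg_ne' (s_ne he hs)
  refine ⟨(lc_app s).comp (fun x => if x = s then (0 : Pt W (AlgebraicClosure k)) else
    T0 h (AlgebraicClosure k)), fun σ τ => ?_⟩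
  show (if (σ * τ) s = s then (0 : Pt W (AlgebraicClosure k)) else T0 h _) =
    (if σ s = s then (0 : Pt W (AlgebraicClosure k)) else T0 h _) + act W σ.toAlgHom
      (if τ s = s then (0 : Pt W (AlgebraicClosure k)) else T0 h _)
  rw [AlgEquiv.mul_apply]
  rcases pm_of hs σ with h1 | h1 <;> rcases pm_of hs τ with h2 | h2
  · rw [h2, h1, if_pos rfl, map_zero, add_zero]
  · rw [h2, map_neg, h1, if_neg hn, if_pos rfl, act_T0, zero_add]
  · rw [h2, h1, if_neg hn, if_pos rfl, map_zero, add_zero]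
  · rw [h2, map_neg, h1, neg_neg, if_pos rfl, if_neg hn, act_T0, two_T0]

lemma chi_add (h : KDat W W' a b a' b' u) {s t : AlgebraicClosure k} {e f : k} (he : e ≠ 0)
    (hf : f ≠ 0) (hs : s ^ 2 = algebraMap k _ e) (ht : t ^ 2 = algebraMap k _ f) :
    chi h s + chi h t = chi h (s * t) := by
  have : CharZero (AlgebraicClosure k) := cz k _
  have hs0 := s_ne he hs
  have ht0 := s_ne hf ht
  have n1 := neg_ne' hs0
  have n2 := neg_ne' ht0
  have n3 := neg_ne' (mul_ne_zero hs0 ht0)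
  funext σ
  show (if σ s = s then (0 : Pt W (AlgebraicClosure k)) else T0 h _) +
    (if σ t = t then (0 : Pt W (AlgebraicClosure k)) else T0 h _) =
    (if σ (s * t) = s * t then (0 : Pt W (AlgebraicClosure k)) else T0 h _)
  rw [map_mul]
  rcases pm_of hs σ with h1 | h1 <;> rcases pm_of ht σ with h2 | h2
  · rw [h2, h1, if_pos rfl, if_pos rfl, if_pos rfl, add_zero]
  · rw [h2, h1, if_pos rfl, if_neg n2, mul_neg, if_neg n3, zero_add]
  · rw [h2, h1, if_pos rfl, if_neg n1, neg_mul, if_neg n3, add_zero]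
  · rw [h2, h1, if_neg n1, if_neg n2, neg_mul_neg, if_pos rfl, two_T0]

lemma chi_loc (h : KDat W W' a b a' b' u) {s : AlgebraicClosure k} {e : k} (he : e ≠ 0)
    (hs : s ^ 2 = algebraMap k _ e) (K : Type) [Field K] [Algebra k K]
    (H : LC K (algebraMap k K a') (algebraMap k K b') (algebraMap k K e)) :
    LocTriv W K (chi h s) := by
  intro ι
  have hs' : (ι s) ^ 2 = algebraMap K (AlgebraicClosure K) (algebraMap k K e) := by
    rw [← map_pow, hs, AlgHom.commutes, ← IsScalarTower.algebraMap_apply]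
  obtain ⟨P, hP⟩ := suf h hs' ((map_ne_zero _).2 he) H
  refine ⟨P, fun τ σ hτ => ?_⟩
  have e1 : act W ι (chi h s σ) = if σ s = s then 0 else T0 h (AlgebraicClosure K) := by
    show act W ι (if σ s = s then (0 : Pt W (AlgebraicClosure k)) else T0 h _) = _
    by_cases h1 : σ s = s
    · rw [if_pos h1, if_pos h1, map_zero]
    · rw [if_neg h1, if_neg h1, act_T0]
  have e2 := hτ s
  have : CharZero (AlgebraicClosure K) := cz k _
  have hsK0 : ι s ≠ 0 := (map_ne_zero ι).2 (s_ne he hs)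
  rw [e1]
  rcases hP τ with ⟨h1, h2⟩ | ⟨h1, h2⟩
  · have h3 : σ s = s := ι.injective (by show ι (σ s) = ι s; rw [← e2, h2])
    rw [if_pos h3, h1, sub_self]
  · have h3 : σ s ≠ s := by
      intro h3
      rw [h3, h2] at e2
      exact hsK0 (self_eq_neg.1 e2.symm)
    rw [if_neg h3, h1]
    abel

lemma chi_nec (h : KDat W W' a b a' b' u) {s : AlgebraicClosure k} {e : k} (he : e ≠ 0)
    (hs : s ^ 2 = algebraMap k _ e) (K : Type) [Field K] [Algebra k K]
    (H : LocTriv W K (chi h s)) :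
    LC K (algebraMap k K a') (algebraMap k K b') (algebraMap k K e) := by
  let ι : AlgebraicClosure k →ₐ[k] AlgebraicClosure K := IsAlgClosed.lift
  have hs' : (ι s) ^ 2 = algebraMap K (AlgebraicClosure K) (algebraMap k K e) := by
    rw [← map_pow, hs, AlgHom.commutes, ← IsScalarTower.algebraMap_apply]
  obtain ⟨P, hP⟩ := H ι
  apply nec h (s := ι s) (P := P) hs'
  intro τ
  obtain ⟨σ, hσ⟩ := Pool.Agent.Y682.exists_restr ι τ
  have e1 : act W ι (chi h s σ) = if σ s = s then 0 else T0 h (AlgebraicClosure K) := by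
    show act W ι (if σ s = s then (0 : Pt W (AlgebraicClosure k)) else T0 h _) = _
    by_cases h1 : σ s = s
    · rw [if_pos h1, if_pos h1, map_zero]
    · rw [if_neg h1, if_neg h1, act_T0]
  have e2 := hP τ σ hσ
  rw [e1] at e2
  by_cases h1 : σ s = s
  · left
    rw [if_pos h1] at e2
    exact ⟨sub_eq_zero.1 e2.symm, by rw [hσ, h1]⟩
  · right
    rw [if_neg h1] at e2
    refine ⟨?_, ?_⟩
    · rw [e2]; abel
    · rw [hσ, (pm_of hs σ).resolve_left h1, map_neg]

lemma cob_iff (h : KDat W W' a b a' b' u) {s : AlgebraicClosure k} {e : k} (he : e ≠ 0)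
    (hs : s ^ 2 = algebraMap k _ e) : IsCob W (chi h s) ↔ LC k a' b' e := by
  have : CharZero (AlgebraicClosure k) := cz k _
  have hs0 := s_ne he hs
  constructor
  · rintro ⟨P, hP⟩
    apply nec h (K := k) (s := s) (P := P) hs
    intro τ
    have e2 : (if τ s = s then (0 : Pt W (AlgebraicClosure k)) else T0 h _) =
      act W (τ.toAlgHom.restrictScalars k) P - P := hP τ
    by_cases h1 : τ s = s
    · left
      rw [if_pos h1] at e2
      exact ⟨sub_eq_zero.1 e2.symm, h1⟩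
    · right
      rw [if_neg h1] at e2
      refine ⟨?_, (pm_of hs τ).resolve_left h1⟩
      rw [e2]; abel
  · intro H
    obtain ⟨P, hP⟩ := suf h (K := k) hs he H
    refine ⟨P, fun σ => ?_⟩
    show (if σ s = s then (0 : Pt W (AlgebraicClosure k)) else T0 h _) =
      act W (σ.toAlgHom.restrictScalars k) P - P
    rcases hP σ with ⟨h1, h2⟩ | ⟨h1, h2⟩
    · rw [if_pos h2, h1, sub_self]
    · rw [if_neg (by rw [h2]; exact fun h0 => hs0 (self_eq_neg.1 h0.symm)), h1]
      abel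

lemma kc1 (h : KDat W W' a b a' b' u) {f : Coch W} (hf : IsCoc W f)
    (hk : ∀ σ, isoH (AlgebraicClosure k) h (f σ) = 0) :
    IsLocallyConstant (fun σ => decide (f σ ≠ 0)) ∧
    (∀ σ τ : Gal k, decide (f (σ * τ) ≠ 0) = xor (decide (f σ ≠ 0)) (decide (f τ ≠ 0))) ∧
    ∀ s : AlgebraicClosure k, (∀ σ : Gal k, σ s = s ↔ decide (f σ ≠ 0) = false) → f = chi h s := by
  have hv : ∀ σ, f σ = 0 ∨ f σ = T0 h (AlgebraicClosure k) := fun σ => (ker_iff h _ (f σ)).1 (hk σ)
  have hT := T0_ne h (AlgebraicClosure k)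
  refine ⟨hf.1.comp fun T => decide (T ≠ 0), fun σ τ => ?_, fun s hs => ?_⟩
  · have h3 := hf.2 σ τ
    rcases hv σ with h4 | h4 <;> rcases hv τ with h5 | h5
    · have h6 : f (σ * τ) = 0 := by rw [h3, h4, h5, map_zero, add_zero]
      simp [h6, h4, h5]
    · have h6 : f (σ * τ) ≠ 0 := by rw [h3, h4, h5, act_T0, zero_add]; exact hT
      have h7 : f τ ≠ 0 := by rw [h5]; exact hT
      simp [h6, h4, h7]
    · have h6 : f (σ * τ) ≠ 0 := by rw [h3, h4, h5, map_zero, add_zero]; exact hT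
      have h7 : f σ ≠ 0 := by rw [h4]; exact hT
      simp [h6, h7, h5]
    · have h6 : f (σ * τ) = 0 := by rw [h3, h4, h5, act_T0, two_T0]
      have h7 : f σ ≠ 0 := by rw [h4]; exact hT
      have h8 : f τ ≠ 0 := by rw [h5]; exact hT
      simp [h6, h7, h8]
  · funext σ
    show f σ = if σ s = s then (0 : Pt W (AlgebraicClosure k)) else T0 h _
    have h3 := hs σ
    by_cases h4 : σ s = s
    · rw [if_pos h4]
      have h5 := h3.1 h4
      simpa using h5
    · rw [if_neg h4]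
      rcases hv σ with h5 | h5
      · exfalso
        apply h4
        apply h3.2
        simp [h5]
      · exact h5

/-- the coboundary of `P` -/
noncomputable def dlc (P : Pt W (AlgebraicClosure k)) : Coch W := fun σ => act W σ.toAlgHom P - P

lemma dl_coc (P : Pt W (AlgebraicClosure k)) : IsCoc W (dlc P) := by
  refine ⟨?_, fun σ τ => ?_⟩
  · refine IsLocallyConstant.sub ?_ (IsLocallyConstant.const _)
    rcases P with _ | ⟨x, y, hxy⟩
    · exact IsLocallyConstant.const _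
    · rw [IsLocallyConstant.iff_eventually_eq]
      intro σ
      have h1 := ((IsLocallyConstant.iff_eventually_eq _).1 (lc_app x)) σ
      have h2 := ((IsLocallyConstant.iff_eventually_eq _).1 (lc_app y)) σ
      filter_upwards [h1, h2] with τ h3 h4
      rw [Pool.Agent.R432.act_some, Pool.Agent.R432.act_some]
      exact pt_congr _ _ _ h3 h4
  · show act W (σ * τ).toAlgHom P - P = (act W σ.toAlgHom P - P) +
      act W σ.toAlgHom (act W τ.toAlgHom P - P)
    have e1 : act W (σ * τ).toAlgHom P = act W σ.toAlgHom (act W τ.toAlgHom P) := by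
      rcases P with _ | ⟨x, y, hxy⟩
      · exact (map_zero _).trans (map_zero (act W σ.toAlgHom)).symm
      · rw [Pool.Agent.R432.act_some, Pool.Agent.R432.act_some, Pool.Agent.R432.act_some]
        exact pt_congr _ _ _ rfl rfl
    rw [map_sub, e1]
    abel

lemma act_comp {L1 L2 L3 : Type} [Field L1] [Algebra k L1] [Field L2] [Algebra k L2] [Field L3]
    [Algebra k L3] {L2' : Type} [Field L2'] [Algebra k L2'] (φ : L1 →ₐ[k] L2) (ψ : L2 →ₐ[k] L3)
    (φ' : L1 →ₐ[k] L2') (ψ' : L2' →ₐ[k] L3) (hh : ∀ x, ψ (φ x) = ψ' (φ' x)) (P : Pt W L1) :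
    act W ψ (act W φ P) = act W ψ' (act W φ' P) := by
  rcases P with _ | ⟨x, y, hxy⟩
  · exact ((congrArg (act W ψ) (map_zero (act W φ))).trans (map_zero _)).trans
      ((congrArg (act W ψ') (map_zero (act W φ'))).trans (map_zero _)).symm
  · rw [Pool.Agent.R432.act_some, Pool.Agent.R432.act_some, Pool.Agent.R432.act_some,
      Pool.Agent.R432.act_some]
    exact pt_congr _ _ _ (hh x) (hh y)

lemma dl_loc (P : Pt W (AlgebraicClosure k)) (K : Type) [Field K] [Algebra k K] :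
    LocTriv W K (dlc P) := by
  intro ι
  refine ⟨act W ι P, fun τ σ hτ => ?_⟩
  show act W ι (act W σ.toAlgHom P - P) = _
  rw [map_sub]
  congr 1
  exact act_comp _ _ _ _ (fun x => (hτ x).symm) P

lemma kc2 (h : KDat W W' a b a' b' u) {f : Coch W} (hf : IsCoc W f)
    (hc : IsCob W' (iC (NH.iso h) f)) : ∃ (P : Pt W (AlgebraicClosure k)),
      ∀ σ, isoH (AlgebraicClosure k) h ((f - dlc P) σ) = 0 := by
  obtain ⟨Q, hQ⟩ := hc
  obtain ⟨P, rfl⟩ := surj h (AlgebraicClosure k) Q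
  have hQ' : ∀ σ, isoH (AlgebraicClosure k) h (f σ) =
    act W' σ.toAlgHom (isoH (AlgebraicClosure k) h P) - isoH (AlgebraicClosure k) h P := hQ
  refine ⟨P, fun σ => ?_⟩
  show isoH (AlgebraicClosure k) h (f σ - (act W σ.toAlgHom P - P)) = 0
  rw [map_sub, map_sub, hQ' σ, isoH_act]
  exact sub_self _

end

lemma le_def {D : ℤ} (K : Type) [Field K] [Algebra ℚ K] (e : ℤ) : LE K D e ↔
    LC K (algebraMap ℚ K (-7 * (D : ℚ))) (algebraMap ℚ K (-144 * (D : ℚ) ^ 2))
      (algebraMap ℚ K (e : ℚ)) := by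
  unfold LE
  have e1 : algebraMap ℚ K (-7 * (D : ℚ)) = -7 * (D : K) := by
    rw [map_mul, map_neg, map_ofNat, map_intCast]
  have e2 : algebraMap ℚ K (-144 * (D : ℚ) ^ 2) = -144 * (D : K) ^ 2 := by
    rw [map_mul, map_neg, map_ofNat, map_pow, map_intCast]
  rw [e1, e2, map_intCast]

section

variable {W W' : WeierstrassCurve ℚ} {D : ℕ}

lemma toA {s : AlgebraicClosure ℚ} {e : ℤ} (hs : s ^ 2 = e) : s ^ 2 = algebraMap ℚ (AlgebraicClosure ℚ) (e : ℚ) := by
  rw [hs, map_intCast]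

lemma chi_sha (h : HD W W' D) (h1 : D ≠ 1) (hD : Squarefree D) (hm : Fm D) {s : AlgebraicClosure ℚ} {e : ℤ}
    (he : e ≠ 0) (hs : s ^ 2 = e) (hV : InV D e.natAbs) : IsShaCoc W (chi h s) := by
  obtain ⟨H1, H2⟩ := suff h1 hD hm hV
  have he' : (e : ℚ) ≠ 0 := Int.cast_ne_zero.2 he
  exact ⟨chi_coc h he' (toA hs), fun p _ => chi_loc h he' (toA hs) _ ((le_def _ e).1 (H1 p)),
    chi_loc h he' (toA hs) _ ((le_def _ e).1 H2)⟩

lemma sha_inV (h : HD W W' D) (h1 : D ≠ 1) (hD : Squarefree D) (hm : Fm D) {s : AlgebraicClosure ℚ} {e : ℤ}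
    (he : Squarefree e) (hs : s ^ 2 = e) (H : IsShaCoc W (chi h s)) : InV D e.natAbs :=
  necc h1 hD hm he (fun p _ => (le_def _ e).2
    (chi_nec h (Int.cast_ne_zero.2 he.ne_zero) (toA hs) _ (H.2.1 p)))

lemma kum' (χ : Gal ℚ → Bool) (hc : IsLocallyConstant χ)
    (hm : ∀ σ τ : Gal ℚ, χ (σ * τ) = xor (χ σ) (χ τ)) :
    ∃ e : ℤ, Squarefree e ∧ ∀ s : AlgebraicClosure ℚ, s ^ 2 = (e : AlgebraicClosure ℚ) →
      ∀ σ : Gal ℚ, σ s = s ↔ χ σ = false :=
  Pool.Agent.TH841.SH.kum χ hc hm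

/-- a cocycle with values in the kernel of the isogeny -/
lemma ker_coc (h : HD W W' D) {f : Coch W} (hf : IsCoc W f)
    (hk : ∀ σ, isoH (AlgebraicClosure ℚ) h (f σ) = 0) :
    ∃ (e : ℤ) (s : AlgebraicClosure ℚ), Squarefree e ∧ s ^ 2 = e ∧ f = chi h s := by
  obtain ⟨k1, k2, k3⟩ := kc1 h hf hk
  obtain ⟨e, he, hes⟩ := kum' _ k1 k2
  obtain ⟨s, hs⟩ := IsAlgClosed.exists_pow_nat_eq ((e : ℤ) : AlgebraicClosure ℚ) (n := 2) (by norm_num)
  exact ⟨e, s, he, hs, k3 s (hes s hs)⟩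

/-- the class of a coboundary -/
lemma mk_zero {f : shaCoc W} : mkQ f = 0 ↔ IsCob W (f : Coch W) := by
  show (QuotientAddGroup.mk' ((cob W).addSubgroupOf (shaCoc W))) f = 0 ↔ _
  rw [QuotientAddGroup.mk'_apply, QuotientAddGroup.eq_zero_iff, AddSubgroup.mem_addSubgroupOf]
  exact Iff.rfl

/-- the class of a character -/
lemma class_of (h : HD W W' D) (h1 : D ≠ 1) (hD : Squarefree D) (hm : Fm D) (x : Sha W)
    (hx : iSQ (NH.iso h) x = 0) : ∃ (e : ℤ) (s : AlgebraicClosure ℚ) (he : Squarefree e)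
      (hs : s ^ 2 = e) (hV : InV D e.natAbs),
        x = mkQ ⟨chi h s, chi_sha h h1 hD hm he.ne_zero hs hV⟩ := by
  obtain ⟨f, rfl⟩ := mkQ_surj x
  rw [iSQ_mk] at hx
  obtain ⟨P, hk⟩ := kc2 h f.2.1 (mk_zero.1 hx)
  let g : shaCoc W := ⟨dlc P, dl_coc P, fun p _ => dl_loc P _, dl_loc P _⟩
  obtain ⟨e, s, he, hs, hfg⟩ := ker_coc h (f - g).2.1 hk
  have hsc : IsShaCoc W (chi h s) := by rw [← hfg]; exact (f - g).2
  have hV := sha_inV h h1 hD hm he hs hsc
  refine ⟨e, s, he, hs, hV, ?_⟩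
  have e1 : f - g = ⟨chi h s, chi_sha h h1 hD hm he.ne_zero hs hV⟩ := Subtype.ext hfg
  rw [← e1]
  have e2 : f = (f - g) + g := by abel
  nth_rw 1 [e2]
  rw [mkQ_add]
  have e3 : mkQ g = 0 := mk_zero.2 ⟨P, fun σ => rfl⟩
  rw [e3, add_zero]

end

end Pool.Agent.H468.ISG
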