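import Pool.Graph.R_pool_sql_team_seeded_620a6dc7.H487.K.S9
import Pool.Graph.R_seed8.TH841.SH.Grp

/-!
# Descent by a 2-isogeny: the square root of the abscissa of the image

`W : y² = x³ + a x² + b x`, `W' : y² = x³ + a' x² + b' x`, and the isogeny `W → W'` with kernel `{0, T}`,
`T = (0, 0)`.  The function `rr = y / (u x)` on `W` satisfies `rr² = X` (the abscissa of the image) and
`rr (P + T) = - rr P`.
-/

set_option autoImplicit false
set_option linter.all false

open scoped Classical

namespace Pool.Agent.H468.ISG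

open WeierstrassCurve
open Pool.Agent.TH841.SH.D (Pt act Gal Coch IsCoc IsCob LocTriv cob)
open Pool.Agent.R432 (KDat NH isoH isoH_act isoH_ker isoH_zero isoH_some bc cz act_zero'
  act_inj pt_congr)
open Pool.Agent.Y676.IS (Dat Cu cu_ns ns_eq)

section

variable {k : Type} [Field k] [CharZero k] {W W' : WeierstrassCurve k} {a b a' b' u : k}

lemma eqn (h : KDat W W' a b a' b' u) (L : Type) [Field L] [Algebra k L] {x y : L}
    (hxy : (W.baseChange L).toAffine.Nonsingular x y) :
    y ^ 2 = x ^ 3 + algebraMap k L a * x ^ 2 + algebraMap k L b * x := by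
  have : CharZero L := cz k L
  have h1 := hxy.1
  rw [h.w L] at h1
  exact Pool.Agent.Y676.IS.cu_eq.1 h1

lemma eqn' (h : KDat W W' a b a' b' u) (L : Type) [Field L] [Algebra k L] {x y : L}
    (hxy : (W'.baseChange L).toAffine.Nonsingular x y) :
    y ^ 2 = x ^ 3 + algebraMap k L a' * x ^ 2 + algebraMap k L b' * x := by
  have : CharZero L := cz k L
  have h1 := hxy.1
  rw [h.w' L] at h1
  exact Pool.Agent.Y676.IS.cu_eq.1 h1

lemma nons (h : KDat W W' a b a' b' u) (L : Type) [Field L] [Algebra k L] {x y : L}
    (e : y ^ 2 = x ^ 3 + algebraMap k L a * x ^ 2 + algebraMap k L b * x) :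
    (W.baseChange L).toAffine.Nonsingular x y := by
  have : CharZero L := cz k L
  rw [h.w L]
  exact cu_ns (h.base L).hb (h.base L).hd e

lemma nons' (h : KDat W W' a b a' b' u) (L : Type) [Field L] [Algebra k L] {x y : L}
    (e : y ^ 2 = x ^ 3 + algebraMap k L a' * x ^ 2 + algebraMap k L b' * x) :
    (W'.baseChange L).toAffine.Nonsingular x y := by
  have : CharZero L := cz k L
  have hd' : (algebraMap k L a') ^ 2 - 4 * algebraMap k L b' ≠ 0 := by
    have g := h.base L
    have g1 := g.e1
    have g2 := g.e2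
    intro h0
    have h1 : algebraMap k L b = 0 := by
      have h2 : 16 * algebraMap k L b = 0 := by
        have h3 : (algebraMap k L u) ^ 4 * ((algebraMap k L a') ^ 2 - 4 * algebraMap k L b') = 0 := by
          rw [h0, mul_zero]
        have h4 : (algebraMap k L u ^ 2 * algebraMap k L a') ^ 2 = 4 * algebraMap k L a ^ 2 := by
          rw [g1]; ring
        linear_combination h3 - h4 + 4 * g2
      exact (mul_eq_zero.1 h2).resolve_left (by norm_num)
    exact g.hb h1
  rw [h.w' L]
  exact cu_ns (h.base L).hb' hd' e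

lemma ns0 (h : KDat W W' a b a' b' u) (L : Type) [Field L] [Algebra k L] :
    (W.baseChange L).toAffine.Nonsingular 0 0 := nons h L (by ring)

/-- the point `T = (0, 0)` -/
noncomputable def T0 (h : KDat W W' a b a' b' u) (L : Type) [Field L] [Algebra k L] : Pt W L :=
  (Affine.Point.some 0 0 (ns0 h L) : (W.baseChange L).toAffine.Point)

lemma T0_ne (h : KDat W W' a b a' b' u) (L : Type) [Field L] [Algebra k L] : T0 h L ≠ 0 :=
  Affine.Point.some_ne_zero _

lemma act_T0 (h : KDat W W' a b a' b' u) {L L' : Type} [Field L] [Algebra k L] [Field L']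
    [Algebra k L'] (φ : L →ₐ[k] L') : act W φ (T0 h L) = T0 h L' := by
  unfold T0
  rw [Pool.Agent.R432.act_some]
  exact pt_congr _ _ _ (map_zero φ) (map_zero φ)

lemma ker_iff (h : KDat W W' a b a' b' u) (L : Type) [Field L] [Algebra k L] (P : Pt W L) :
    isoH L h P = 0 ↔ P = 0 ∨ P = T0 h L := by
  constructor
  · intro hP
    rcases isoH_ker L h P hP with h1 | ⟨h0, h1⟩
    · exact Or.inl h1
    · exact Or.inr h1
  · rintro (rfl | rfl)
    · exact map_zero _
    · exact isoH_zero L h _ rfl

/-- `y / (u x)` -/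
noncomputable def rr (W : WeierstrassCurve k) (u : k) (L : Type) [Field L] [Algebra k L] : Pt W L → L
  | 0 => 0
  | .some x y _ => y / (algebraMap k L u * x)

lemma rr_some (W : WeierstrassCurve k) (u : k) {L : Type} [Field L] [Algebra k L] {x y : L}
    (h : (W.baseChange L).toAffine.Nonsingular x y) :
    rr W u L (Affine.Point.some x y h : (W.baseChange L).toAffine.Point) =
      y / (algebraMap k L u * x) := rfl

lemma rr_act (W : WeierstrassCurve k) (u : k) {L L' : Type} [Field L] [Algebra k L] [Field L']
    [Algebra k L'] (φ : L →ₐ[k] L') (P : Pt W L) : rr W u L' (act W φ P) = φ (rr W u L P) := by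
  rcases P with _ | ⟨x, y, h⟩
  · exact (map_zero φ).symm
  · rw [Pool.Agent.R432.act_some, rr_some, rr_some, map_div₀, map_mul, AlgHom.commutes]

/-- adding `T` -/
lemma add_T0 (h : KDat W W' a b a' b' u) (L : Type) [Field L] [Algebra k L] {x y : L} (hx : x ≠ 0)
    (hxy : (W.baseChange L).toAffine.Nonsingular x y) (P : Pt W L)
    (hP : P = (Affine.Point.some x y hxy : (W.baseChange L).toAffine.Point)) :
    ∃ h', P + T0 h L =
      (Affine.Point.some (algebraMap k L b / x) (-(algebraMap k L b * y) / x ^ 2) h' :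
        (W.baseChange L).toAffine.Point) := by
  subst hP
  have : CharZero L := cz k L
  have e := eqn h L hxy
  have hns : (W.baseChange L).toAffine.Nonsingular (algebraMap k L b / x)
      (-(algebraMap k L b * y) / x ^ 2) := by
    apply nons h L
    rw [div_pow, neg_sq, mul_pow, e]
    field_simp
    ring
  refine ⟨hns, ?_⟩
  have a1 : (W.baseChange L).toAffine.a₁ = 0 := by rw [h.w L]; rfl
  have a2 : (W.baseChange L).toAffine.a₂ = algebraMap k L a := by rw [h.w L]; rfl
  have a3 : (W.baseChange L).toAffine.a₃ = 0 := by rw [h.w L]; rfl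
  have hsl : (W.baseChange L).toAffine.slope x 0 y 0 = y / x := by
    rw [Affine.slope_of_X_ne hx, sub_zero, sub_zero]
  have h1 := Affine.Point.add_some (W := (W.baseChange L).toAffine) (h₁ := hxy)
    (h₂ := ns0 h L) (fun hc => hx hc.1)
  refine Eq.trans ?_ (Eq.trans h1 ?_)
  · rfl
  · apply pt_congr
    · rw [hsl, Affine.addX, a1, a2]
      field_simp
      linear_combination e
    · rw [hsl, Affine.addY, Affine.negY, Affine.negAddY, Affine.addX, a1, a2, a3]
      field_simp
      linear_combination (-y) * e

lemma rr_add (h : KDat W W' a b a' b' u) (L : Type) [Field L] [Algebra k L] (P : Pt W L)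
    (hP : P ≠ 0) (hP' : P ≠ T0 h L) : rr W u L (P + T0 h L) = - rr W u L P := by
  have : CharZero L := cz k L
  rcases P with _ | ⟨x, y, hxy⟩
  · exact absurd rfl hP
  · have hx : x ≠ 0 := by
      rintro rfl
      apply hP'
      have e := eqn h L hxy
      have hy : y = 0 := by
        have : y ^ 2 = 0 := by rw [e]; ring
        exact pow_eq_zero_iff (two_ne_zero) |>.1 this
      subst hy
      rfl
    obtain ⟨h', e⟩ := add_T0 h L hx hxy _ rfl
    rw [e, rr_some, rr_some]
    have hb := (h.base L).hb
    have hu := (h.base L).hu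
    field_simp

/-- the image of a point with `x ≠ 0` -/
lemma iso_eq (h : KDat W W' a b a' b' u) (L : Type) [Field L] [Algebra k L] {x y : L} (hx : x ≠ 0)
    (hxy : (W.baseChange L).toAffine.Nonsingular x y) :
    ∃ Y h', isoH L h (Affine.Point.some x y hxy : (W.baseChange L).toAffine.Point) =
      (Affine.Point.some ((rr W u L (Affine.Point.some x y hxy :
        (W.baseChange L).toAffine.Point)) ^ 2) Y h' : (W'.baseChange L).toAffine.Point) := by
  obtain ⟨h', e⟩ := isoH_some L h hxy hx
  refine ⟨_, ?_, e.trans (pt_congr _ _ _ ?_ rfl)⟩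
  · rw [rr_some, div_pow, mul_pow]
    exact h'
  · rw [rr_some, div_pow, mul_pow]

end

end Pool.Agent.H468.ISG
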