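import Pool.Agent.H468.ISG.Iso

/-!
# Descent by a 2-isogeny: characters and points over an arbitrary field
-/

set_option autoImplicit false
set_option linter.all false

open scoped Classical

namespace Pool.Agent.H468.ISG

open WeierstrassCurve
open Pool.Agent.TH841.SH.D (Pt act Gal Coch IsCoc IsCob LocTriv cob)
open Pool.Agent.R432 (KDat NH isoH isoH_act isoH_ker isoH_zero isoH_some bc cz act_zero'
  act_inj pt_congr)
open Pool.Agent.Y676.IS (Dat Cu cu_ns ns_eq)

/-- `e` is modulo squares the abscissa of a point over `K` of the curve `Y² = X³ + a' X² + b' X` -/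
def LC (K : Type) [Field K] (a' b' e : K) : Prop :=
  IsSquare e ∨ IsSquare (b' * e) ∨
    ∃ X Y : K, X ≠ 0 ∧ Y ^ 2 = X ^ 3 + a' * X ^ 2 + b' * X ∧ IsSquare (X * e)

section

variable {k : Type} [Field k] [CharZero k] {W W' : WeierstrassCurve k} {a b a' b' u : k}

/-- the isogeny is surjective on the points over an algebraically closed field -/
lemma surj (h : KDat W W' a b a' b' u) (L : Type) [Field L] [Algebra k L] [IsAlgClosed L]
    (Q : Pt W' L) : ∃ P : Pt W L, isoH L h P = Q := by
  have : CharZero L := cz k L
  have g := h.base L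
  rcases Q with _ | ⟨X, Y, hXY⟩
  · exact ⟨0, map_zero _⟩
  · obtain ⟨r, hr⟩ := IsAlgClosed.exists_pow_nat_eq X (n := 2) (by norm_num)
    -- the root
    obtain ⟨x, hx⟩ : ∃ x : L, x ^ 2 + (algebraMap k L a - algebraMap k L u ^ 2 * r ^ 2) * x +
        algebraMap k L b = 0 := by
      obtain ⟨w, hw⟩ := IsAlgClosed.exists_pow_nat_eq
        ((algebraMap k L a - algebraMap k L u ^ 2 * r ^ 2) ^ 2 - 4 * algebraMap k L b)
        (n := 2) (by norm_num)
      refine ⟨(-(algebraMap k L a - algebraMap k L u ^ 2 * r ^ 2) + w) / 2, ?_⟩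
      field_simp
      linear_combination hw
    have hx0 : x ≠ 0 := by
      rintro rfl
      apply g.hb
      linear_combination hx
    have hns : (W.baseChange L).toAffine.Nonsingular x (algebraMap k L u * x * r) := by
      apply nons h L
      linear_combination (-x) * hx
    obtain ⟨Y', h', e⟩ := iso_eq h L hx0 hns
    have hrr : rr W u L (Affine.Point.some x (algebraMap k L u * x * r) hns :
        (W.baseChange L).toAffine.Point) = r := by
      rw [rr_some]
      have hu := g.hu
      field_simp
    have e1 : (X : L) = (rr W u L (Affine.Point.some x (algebraMap k L u * x * r) hns :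
        (W.baseChange L).toAffine.Point)) ^ 2 := by rw [hrr, hr]
    have q1 := eqn' h L hXY
    have q2 := eqn' h L h'
    rw [← e1] at q2
    have q3 : Y' ^ 2 = Y ^ 2 := by rw [q1, q2]
    rcases sq_eq_sq_iff_eq_or_eq_neg.1 q3 with q4 | q4
    · exact ⟨_, e.trans (pt_congr _ _ _ e1.symm q4)⟩
    · refine ⟨-(Affine.Point.some x (algebraMap k L u * x * r) hns :
        (W.baseChange L).toAffine.Point), ?_⟩
      have e2 : isoH L h (-(Affine.Point.some x (algebraMap k L u * x * r) hns :
        (W.baseChange L).toAffine.Point)) = - isoH L h (Affine.Point.some x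
          (algebraMap k L u * x * r) hns : (W.baseChange L).toAffine.Point) :=
        map_neg (isoH L h) _
      rw [e2, e]
      have a1 : (W'.baseChange L).toAffine.a₁ = 0 := by rw [h.w' L]; rfl
      have a3 : (W'.baseChange L).toAffine.a₃ = 0 := by rw [h.w' L]; rfl
      refine (Affine.Point.neg_some h').trans (pt_congr _ _ _ e1.symm ?_)
      rw [Affine.negY, a1, a3, q4]
      ring

variable {K : Type} [Field K] [Algebra k K]

/-- the condition that the character of `s` is the coboundary of `P` -/
def Cb (h : KDat W W' a b a' b' u) (K : Type) [Field K] [Algebra k K] (s : AlgebraicClosure K)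
    (P : Pt W (AlgebraicClosure K)) : Prop :=
  ∀ τ : Gal K, (act W (τ.toAlgHom.restrictScalars k) P = P ∧ τ s = s) ∨
    (act W (τ.toAlgHom.restrictScalars k) P = P + T0 h (AlgebraicClosure K) ∧ τ s = -s)

lemma iso_fix (h : KDat W W' a b a' b' u) {s : AlgebraicClosure K} {P : Pt W (AlgebraicClosure K)}
    (H : Cb h K s P) (τ : Gal K) :
    act W' (τ.toAlgHom.restrictScalars k) (isoH (AlgebraicClosure K) h P) =
      isoH (AlgebraicClosure K) h P := by
  rw [isoH_act]
  rcases H τ with ⟨h1, -⟩ | ⟨h1, -⟩
  · rw [h1]
  · rw [h1, map_add, (ker_iff h _ (T0 h _)).2 (Or.inr rfl), add_zero]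

lemma nec (h : KDat W W' a b a' b' u) {s : AlgebraicClosure K} {P : Pt W (AlgebraicClosure K)} {e : K}
    (hs : s ^ 2 = algebraMap K (AlgebraicClosure K) e) (H : Cb h K s P) :
    LC K (algebraMap k K a') (algebraMap k K b') e := by
  have cK : CharZero K := cz k K
  have cO : CharZero (AlgebraicClosure K) := cz K (AlgebraicClosure K)
  have inj := (algebraMap K (AlgebraicClosure K)).injective
  have tow : ∀ r : k, algebraMap K (AlgebraicClosure K) (algebraMap k K r) =
      algebraMap k (AlgebraicClosure K) r := fun r =>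
    (IsScalarTower.algebraMap_apply k K (AlgebraicClosure K) r).symm
  by_cases hP0 : P = 0 ∨ P = T0 h (AlgebraicClosure K)
  · left
    have hfix : ∀ τ : Gal K, τ s = s := by
      intro τ
      rcases H τ with ⟨-, h1⟩ | ⟨h1, -⟩
      · exact h1
      · exfalso
        rcases hP0 with rfl | rfl
        · rw [map_zero, zero_add] at h1
          exact T0_ne h _ h1.symm
        · rw [act_T0] at h1
          exact T0_ne h _ (left_eq_add.1 h1)
    obtain ⟨c, hc⟩ := Pool.Agent.TH841.SH.fix_mem (K := K) s hfix
    refine ⟨c, inj ?_⟩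
    rw [map_mul, hc, ← hs, sq]
  · push Not at hP0
    obtain ⟨hP1, hP2⟩ := hP0
    rcases P with _ | ⟨x, y, hxy⟩
    · exact absurd rfl hP1
    have g := h.base (AlgebraicClosure K)
    have e0 := eqn h _ hxy
    have hx : x ≠ 0 := by
      rintro rfl
      apply hP2
      have hy : y = 0 := by
        have : y ^ 2 = 0 := by rw [e0]; ring
        exact pow_eq_zero_iff (two_ne_zero) |>.1 this
      subst hy
      rfl
    obtain ⟨hQ, eQ⟩ := add_T0 h (AlgebraicClosure K) hx hxy _ rfl
    right
    by_cases hy : y = 0
    · left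
      subst hy
      have h1 : x ^ 2 + algebraMap k (AlgebraicClosure K) a * x +
          algebraMap k (AlgebraicClosure K) b = 0 := by
        have : x * (x ^ 2 + algebraMap k (AlgebraicClosure K) a * x +
          algebraMap k (AlgebraicClosure K) b) = 0 := by linear_combination -e0
        exact (mul_eq_zero.1 this).resolve_left hx
      have hfix : ∀ τ : Gal K, τ ((2 * x + algebraMap k (AlgebraicClosure K) a) * s) =
          (2 * x + algebraMap k (AlgebraicClosure K) a) * s := by
        intro τ
        have ha : τ (algebraMap k (AlgebraicClosure K) a) = algebraMap k (AlgebraicClosure K) a := by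
          rw [← tow]; exact τ.commutes _
        rw [map_mul, map_add, map_mul, map_ofNat, ha]
        rcases H τ with ⟨h2, h3⟩ | ⟨h2, h3⟩
        · rw [h3]
          rw [Pool.Agent.R432.act_some] at h2
          have h4 : τ x = x := (Affine.Point.some.inj h2).1
          rw [h4]
        · rw [h3]
          rw [Pool.Agent.R432.act_some] at h2
          have h4 : τ x = algebraMap k (AlgebraicClosure K) b / x :=
            (Affine.Point.some.inj (h2.trans eQ)).1
          rw [h4]
          field_simp
          linear_combination (-2 * s) * h1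
      obtain ⟨m, hm⟩ := Pool.Agent.TH841.SH.fix_mem (K := K) _ hfix
      have hu : algebraMap k K u ≠ 0 := (map_ne_zero _).2 h.dat.hu
      refine ⟨m / algebraMap k K u ^ 2, inj ?_⟩
      have hu' := g.hu
      have h5 : (algebraMap K (AlgebraicClosure K) m) ^ 2 =
          algebraMap k (AlgebraicClosure K) u ^ 4 * algebraMap k (AlgebraicClosure K) b' *
            algebraMap K (AlgebraicClosure K) e := by
        rw [hm, mul_pow, hs, g.e2]
        linear_combination (4 * algebraMap K (AlgebraicClosure K) e) * h1
      rw [map_mul, tow, map_mul, map_div₀, map_pow, tow]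
      field_simp
      linear_combination -h5
    · right
      obtain ⟨Y', h', e1⟩ := iso_eq h (AlgebraicClosure K) hx hxy
      set r := rr W u (AlgebraicClosure K) (Affine.Point.some x y hxy :
        (W.baseChange (AlgebraicClosure K)).toAffine.Point) with hr
      have hr0 : r ≠ 0 := by
        rw [hr, rr_some]
        exact div_ne_zero hy (mul_ne_zero g.hu hx)
      have m0 : ∀ τ : Gal K, (τ r = r ∧ τ s = s) ∨ (τ r = -r ∧ τ s = -s) := by
        intro τ
        have h1 := rr_act W u (τ.toAlgHom.restrictScalars k) (Affine.Point.some x y hxy :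
          (W.baseChange (AlgebraicClosure K)).toAffine.Point)
        have h1' : rr W u (AlgebraicClosure K) (act W (τ.toAlgHom.restrictScalars k)
          (Affine.Point.some x y hxy : (W.baseChange (AlgebraicClosure K)).toAffine.Point)) =
            τ r := h1
        rcases H τ with ⟨h2, h3⟩ | ⟨h2, h3⟩
        · left
          rw [h2] at h1'
          exact ⟨h1'.symm, h3⟩
        · right
          rw [h2, rr_add h _ _ hP1 hP2] at h1'
          exact ⟨h1'.symm, h3⟩
      have hfix := iso_fix h H
      rw [e1] at hfix
      have hXY : ∀ τ : Gal K, τ (r ^ 2) = r ^ 2 ∧ τ Y' = Y' := by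
        intro τ
        have h1 := hfix τ
        rw [Pool.Agent.R432.act_some] at h1
        exact ⟨(Affine.Point.some.inj h1).1, (Affine.Point.some.inj h1).2⟩
      obtain ⟨X, hX⟩ := Pool.Agent.TH841.SH.fix_mem (K := K) _ fun τ => (hXY τ).1
      obtain ⟨Y, hY⟩ := Pool.Agent.TH841.SH.fix_mem (K := K) _ fun τ => (hXY τ).2
      obtain ⟨m, hm⟩ := Pool.Agent.TH841.SH.fix_mem (K := K) (r * s) fun τ => by
        rw [map_mul]
        rcases m0 τ with ⟨h1, h2⟩ | ⟨h1, h2⟩
        · rw [h1, h2]
        · rw [h1, h2, neg_mul_neg]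
      refine ⟨X, Y, ?_, inj ?_, m, inj ?_⟩
      · rintro rfl
        rw [map_zero] at hX
        exact pow_ne_zero 2 hr0 hX.symm
      · have q := eqn' h _ h'
        simp only [map_add, map_mul, map_pow, hX, hY, tow]
        exact q
      · rw [map_mul, hX, map_mul, hm, ← hs]
        ring

lemma suf (h : KDat W W' a b a' b' u) {s : AlgebraicClosure K} {e : K}
    (hs : s ^ 2 = algebraMap K (AlgebraicClosure K) e) (he : e ≠ 0)
    (H : LC K (algebraMap k K a') (algebraMap k K b') e) :
    ∃ P : Pt W (AlgebraicClosure K), Cb h K s P := by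
  have cK : CharZero K := cz k K
  have cO : CharZero (AlgebraicClosure K) := cz K (AlgebraicClosure K)
  have inj := (algebraMap K (AlgebraicClosure K)).injective
  have tow : ∀ r : k, algebraMap K (AlgebraicClosure K) (algebraMap k K r) =
      algebraMap k (AlgebraicClosure K) r := fun r =>
    (IsScalarTower.algebraMap_apply k K (AlgebraicClosure K) r).symm
  have g := h.base (AlgebraicClosure K)
  have he' : algebraMap K (AlgebraicClosure K) e ≠ 0 := (map_ne_zero _).2 he
  have hs0 : s ≠ 0 := by
    rintro rfl
    apply he'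
    rw [← hs]
    ring
  rcases H with ⟨c, hc⟩ | ⟨c, hc⟩ | ⟨X, Y, hX, hXY, c, hc⟩
  · refine ⟨0, fun τ => Or.inl ⟨map_zero _, ?_⟩⟩
    have h1 : s ^ 2 = (algebraMap K (AlgebraicClosure K) c) ^ 2 := by
      rw [hs, hc, map_mul, sq]
    rcases sq_eq_sq_iff_eq_or_eq_neg.1 h1 with h2 | h2
    · rw [h2]; exact τ.commutes c
    · rw [h2, map_neg]; congr 1; exact τ.commutes c
  · -- the points with `y = 0`
    obtain ⟨w, hw⟩ : ∃ w : AlgebraicClosure K, w ^ 2 = algebraMap k (AlgebraicClosure K) b' :=
      IsAlgClosed.exists_pow_nat_eq _ (by norm_num)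
    have hw0 : w ≠ 0 := by
      rintro rfl
      apply g.hb'
      rw [← hw]
      ring
    set A := algebraMap k (AlgebraicClosure K) a with hA
    set B := algebraMap k (AlgebraicClosure K) b with hB
    set U := algebraMap k (AlgebraicClosure K) u with hU
    have hx0 : ((-A + U ^ 2 * w) / 2) ^ 2 + A * ((-A + U ^ 2 * w) / 2) + B = 0 := by
      field_simp
      linear_combination g.e2 + U ^ 4 * hw
    set x := (-A + U ^ 2 * w) / 2 with hx
    have hxn : x ≠ 0 := by
      intro h0
      rw [h0] at hx0
      apply g.hb
      linear_combination hx0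
    have hns : (W.baseChange (AlgebraicClosure K)).toAffine.Nonsingular x 0 := by
      apply nons h
      linear_combination (-x) * hx0
    obtain ⟨hQ, eQ⟩ := add_T0 h (AlgebraicClosure K) hxn hns _ rfl
    refine ⟨(Affine.Point.some x 0 hns : (W.baseChange (AlgebraicClosure K)).toAffine.Point),
      fun τ => ?_⟩
    have hA' : τ A = A := by rw [hA, ← tow]; exact τ.commutes _
    have hU' : τ U = U := by rw [hU, ← tow]; exact τ.commutes _
    have h1 : (w * s) ^ 2 = (algebraMap K (AlgebraicClosure K) c) ^ 2 := by
      rw [mul_pow, hw, hs, ← tow, ← map_mul, hc, map_mul, sq]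
    have h2 : τ (w * s) = w * s := by
      rcases sq_eq_sq_iff_eq_or_eq_neg.1 h1 with h2 | h2
      · rw [h2]; exact τ.commutes c
      · rw [h2, map_neg]; congr 1; exact τ.commutes c
    have hw2 : (τ w) ^ 2 = w ^ 2 := by
      rw [← map_pow, hw, ← tow]; exact τ.commutes _
    have h2' : τ w * τ s = w * s := by rw [← map_mul]; exact h2
    rcases sq_eq_sq_iff_eq_or_eq_neg.1 hw2 with h3 | h3
    · left
      rw [h3] at h2'
      refine ⟨?_, mul_left_cancel₀ hw0 h2'⟩
      rw [Pool.Agent.R432.act_some]
      refine pt_congr _ _ _ ?_ (map_zero _)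
      show τ x = x
      rw [hx, map_div₀, map_add, map_neg, map_mul, map_pow, hA', hU', h3, map_ofNat]
    · right
      rw [h3] at h2'
      have h4 : τ s = -s := by
        apply mul_left_cancel₀ hw0
        linear_combination -h2'
      refine ⟨?_, h4⟩
      rw [eQ, Pool.Agent.R432.act_some]
      refine pt_congr _ _ _ ?_ ?_
      · show τ x = _
        have h5 : τ x = -A - x := by
          rw [hx, map_div₀, map_add, map_neg, map_mul, map_pow, hA', hU', h3, map_ofNat]
          ring
        rw [h5, eq_div_iff hxn]
        linear_combination -hx0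
      · show τ 0 = _
        rw [map_zero, mul_zero, neg_zero, zero_div]
  · have hns : (W'.baseChange (AlgebraicClosure K)).toAffine.Nonsingular
        (algebraMap K (AlgebraicClosure K) X) (algebraMap K (AlgebraicClosure K) Y) := by
      apply nons' h
      rw [← tow, ← tow, ← map_pow, hXY]
      simp only [map_add, map_mul, map_pow]
    obtain ⟨P, hP⟩ := surj h (AlgebraicClosure K)
      (Affine.Point.some _ _ hns : (W'.baseChange (AlgebraicClosure K)).toAffine.Point)
    have hX' : algebraMap K (AlgebraicClosure K) X ≠ 0 := (map_ne_zero _).2 hX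
    have hPn : P ≠ 0 ∧ P ≠ T0 h (AlgebraicClosure K) := by
      constructor
      · rintro rfl
        rw [map_zero] at hP
        exact Affine.Point.some_ne_zero _ hP.symm
      · rintro rfl
        rw [(ker_iff h _ _).2 (Or.inr rfl)] at hP
        exact Affine.Point.some_ne_zero _ hP.symm
    obtain ⟨hP1, hP2⟩ := hPn
    have hr : (rr W u (AlgebraicClosure K) P) ^ 2 = algebraMap K (AlgebraicClosure K) X := by
      rcases P with _ | ⟨x, y, hxy⟩
      · exact absurd rfl hP1
      have hx : x ≠ 0 := by
        rintro rfl
        apply hP2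
        have e0 := eqn h _ hxy
        have hy : y = 0 := by
          have : y ^ 2 = 0 := by rw [e0]; ring
          exact pow_eq_zero_iff (two_ne_zero) |>.1 this
        subst hy
        rfl
      obtain ⟨Y', h', e1⟩ := iso_eq h (AlgebraicClosure K) hx hxy
      exact (Affine.Point.some.inj (e1.symm.trans hP)).1
    set r := rr W u (AlgebraicClosure K) P with hrd
    have hr0 : r ≠ 0 := by
      intro h0
      rw [h0] at hr
      apply hX'
      rw [← hr]
      ring
    refine ⟨P, fun τ => ?_⟩
    have h1 : (r * s) ^ 2 = (algebraMap K (AlgebraicClosure K) c) ^ 2 := by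
      rw [mul_pow, hr, hs, ← map_mul, hc, map_mul, sq]
    have h2 : τ (r * s) = r * s := by
      rcases sq_eq_sq_iff_eq_or_eq_neg.1 h1 with h2 | h2
      · rw [h2]; exact τ.commutes c
      · rw [h2, map_neg]; congr 1; exact τ.commutes c
    have hQf : act W' (τ.toAlgHom.restrictScalars k) (isoH (AlgebraicClosure K) h P) =
        isoH (AlgebraicClosure K) h P := by
      rw [hP, Pool.Agent.R432.act_some]
      exact pt_congr _ _ _ (τ.commutes X) (τ.commutes Y)
    rw [isoH_act] at hQf
    have h3 : isoH (AlgebraicClosure K) h (act W (τ.toAlgHom.restrictScalars k) P - P) = 0 := by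
      rw [map_sub, hQf, sub_self]
    have h4 : τ r = rr W u (AlgebraicClosure K) (act W (τ.toAlgHom.restrictScalars k) P) :=
      (rr_act W u (τ.toAlgHom.restrictScalars k) P).symm
    rw [map_mul] at h2
    rcases (ker_iff h _ _).1 h3 with h5 | h5
    · left
      have h6 := sub_eq_zero.1 h5
      refine ⟨h6, ?_⟩
      rw [h6, ← hrd] at h4
      rw [h4] at h2
      exact mul_left_cancel₀ hr0 h2
    · right
      have h6 : act W (τ.toAlgHom.restrictScalars k) P = P + T0 h (AlgebraicClosure K) := by
        rw [← h5]; abel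
      refine ⟨h6, ?_⟩
      rw [h6, rr_add h _ _ hP1 hP2, ← hrd] at h4
      rw [h4] at h2
      apply mul_left_cancel₀ hr0
      linear_combination -h2

end

end Pool.Agent.H468.ISG
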