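import Pool.Agent.H468.ISG.Loc
import Pool.Agent.H468.X15S.Conv
import Pool.Graph.R_pool_sql_team_seeded_620a6dc7.H487.I.C1
import Pool.Graph.R_pool_sql_team_seeded_620a6dc7.H487.I.C2
import Pool.Graph.R_pool_sql_team_seeded_620a6dc7.H487.I.C3

/-!
# Descent by a 2-isogeny: the local conditions for `y² = x (x - 16 D) (x + 9 D)`
-/

set_option autoImplicit false
set_option linter.all false

open scoped Classical

namespace Pool.Agent.H468.ISG

open Pool.Agent.H468.X15
open Pool.Agent.H757_X15.DD (Fm Crit)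
open Pool.Agent.H487.I.C3 (InV LN)

/-- the local condition for `E_D` -/
def LE (K : Type) [Field K] (D e : ℤ) : Prop := LC K (-7 * (D : K)) (-144 * (D : K) ^ 2) (e : K)

section

variable {K : Type} [Field K] [CharZero K] {D e : ℤ}

lemma le_sq (h : IsSquare (e : K)) : LE K D e := Or.inl h

lemma le_neg (hD : D ≠ 0) (h : LE K D e) : LE K D (-e) := by
  have hDK : (D : K) ≠ 0 := Int.cast_ne_zero.2 hD
  rcases h with ⟨c, hc⟩ | ⟨c, hc⟩ | ⟨X, Y, hX, hXY, c, hc⟩
  · right; left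
    refine ⟨12 * D * c, ?_⟩
    push_cast
    linear_combination 144 * (D : K) ^ 2 * hc
  · left
    refine ⟨c / (12 * D), ?_⟩
    push_cast
    field_simp
    linear_combination hc
  · right; right
    refine ⟨-144 * (D : K) ^ 2 / X, 144 * (D : K) ^ 2 * Y / X ^ 2,
      div_ne_zero (mul_ne_zero (by norm_num) (pow_ne_zero _ hDK)) hX, ?_, 12 * D * c / X, ?_⟩
    · rw [div_pow, mul_pow, hXY]
      field_simp
      ring
    · push_cast
      field_simp
      linear_combination (144 : K) * hc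

lemma le_abs (hD : D ≠ 0) {s : ℤ} (hs : s.natAbs = e.natAbs) (h : LE K D s) : LE K D e := by
  rcases Int.natAbs_eq_natAbs_iff.1 hs with rfl | rfl
  · exact h
  · have h2 := le_neg hD h
    rwa [neg_neg] at h2

/-- the class of `16 D` -/
lemma le_A (hD : D ≠ 0) {D' : ℤ} (hDD : D = e * D') (h : IsSquare (D' : K)) : LE K D e := by
  have hDK : (D : K) ≠ 0 := Int.cast_ne_zero.2 hD
  obtain ⟨c, hc⟩ := h
  right; right
  refine ⟨16 * D, 0, mul_ne_zero (by norm_num) hDK, by ring, 4 * e * c, ?_⟩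
  rw [hDD]
  push_cast
  linear_combination 16 * (e : K) ^ 2 * hc

/-- the class of `-9 D` -/
lemma le_B (hD : D ≠ 0) {D' : ℤ} (hDD : D = e * D') (h : IsSquare ((-D' : ℤ) : K)) : LE K D e := by
  have hDK : (D : K) ≠ 0 := Int.cast_ne_zero.2 hD
  obtain ⟨c, hc⟩ := h
  right; right
  refine ⟨-9 * D, 0, mul_ne_zero (by norm_num) hDK, by ring, 3 * e * c, ?_⟩
  rw [hDD]
  push_cast at hc ⊢
  linear_combination 9 * (e : K) ^ 2 * hc

lemma le_C {D' : ℤ} (hDD : D = e * D') (he : e ≠ 0) (h : ∃ x α β z : K, α ≠ 0 ∧ β ≠ 0 ∧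
    x * e = α ^ 2 ∧ (x + 16 * ((e * D' : ℤ) : K)) * e = β ^ 2 ∧
    x + 25 * ((e * D' : ℤ) : K) = z ^ 2) : LE K D e := by
  obtain ⟨x, α, β, z, hα, hβ, h1, h2, h3⟩ := h
  have heK : (e : K) ≠ 0 := Int.cast_ne_zero.2 he
  right; right
  rw [← hDD] at h2 h3
  refine ⟨x + 16 * D, α * β * z / e, ?_, ?_, β, ?_⟩
  · intro h0
    rw [h0, zero_mul] at h2
    exact hβ (pow_eq_zero_iff (two_ne_zero) |>.1 h2.symm)
  · have e1 : (x + 16 * (D : K)) = β ^ 2 / e := by rw [← h2]; field_simp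
    have e2 : x = α ^ 2 / e := by rw [← h1]; field_simp
    have e3 : (x + 16 * (D : K)) ^ 3 + -7 * D * (x + 16 * D) ^ 2 + -144 * D ^ 2 * (x + 16 * D) =
        (x + 16 * D) * x * (x + 25 * D) := by ring
    rw [e3, h3, e1, e2, div_pow, mul_pow, mul_pow]
    field_simp
  · rw [← sq]; exact h2

end

section

variable {D : ℕ}

lemma suff (h1 : D ≠ 1) (hs : Squarefree D) (hm : Fm D) {d : ℤ} (hd : InV D d.natAbs) :
    (∀ (p : ℕ) [Fact p.Prime], LE ℚ_[p] D d) ∧ LE ℝ D d := by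
  obtain ⟨hdD, hj5, hjp⟩ := hd
  have hDn : D ≠ 0 := hs.ne_zero
  have hD0 : (D : ℤ) ≠ 0 := by exact_mod_cast hDn
  obtain ⟨D', hDD⟩ := hdD
  set e := d.natAbs with he
  have he0 : e ≠ 0 := by
    rintro h0
    rw [h0, zero_mul] at hDD
    exact hDn hDD
  have hD'0 : D' ≠ 0 := by
    rintro rfl
    exact hDn hDD
  have heZ : (e : ℤ) ≠ 0 := by exact_mod_cast he0
  have hDZ : (D : ℤ) = (e : ℤ) * (D' : ℤ) := by rw [hDD]; push_cast; ring
  have hdiv : D / e = D' := by rw [hDD]; exact Nat.mul_div_cancel_left D' (Nat.pos_of_ne_zero he0)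
  have ab1 : ((e : ℤ)).natAbs = d.natAbs := Int.natAbs_natCast _
  have ab2 : (-(e : ℤ)).natAbs = d.natAbs := by rw [Int.natAbs_neg, Int.natAbs_natCast]
  have hm' : D % 60 = 1 ∨ D % 60 = 49 := hm
  constructor
  · intro p hpf
    have hpp : p.Prime := hpf.out
    apply le_abs (s := (e : ℤ)) hD0 ab1
    by_cases hp2 : p = 2
    · subst hp2
      have h4 : (e : ℤ) * (D' : ℤ) % 4 = 1 := by rw [← hDZ]; omega
      rcases at_two h4 with h | h | h
      · exact le_sq h
      · exact le_B hD0 hDZ h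
      · exact le_C hDZ heZ h
    -- both signs of a unit
    have usq : ∀ s : ℤ, ¬ (p : ℤ) ∣ s → jacobiSym s p = 1 → IsSquare (s : ℚ_[p]) :=
      fun s h h' => sq_of_jac hp2 h h'
    have pm : ∀ s : ℤ, ¬ (p : ℤ) ∣ s → p % 4 = 3 → IsSquare (s : ℚ_[p]) ∨ IsSquare ((-s : ℤ) : ℚ_[p]) := by
      intro s h h3
      rcases jac_pm h with j | j
      · exact Or.inl (usq s h j)
      · right
        apply usq _ (by rwa [dvd_neg])
        have hodd : Odd p := hpp.odd_of_ne_two hp2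
        rw [jacobiSym.neg _ hodd, ZMod.χ₄_nat_three_mod_four h3, j]
        norm_num
    by_cases hpe : p ∣ e
    · -- p | e
      have hpD' : ¬ (p : ℤ) ∣ (D' : ℤ) := by
        intro hc
        have h3 : p * p ∣ D := by rw [hDD]; exact mul_dvd_mul hpe (by exact_mod_cast hc)
        exact hpp.one_lt.ne' (Nat.isUnit_iff.1 (hs p h3))
      have hpD : p ∣ D := by rw [hDD]; exact hpe.mul_right D'
      rcases hpp.eq_two_or_odd with h | h
      · exact absurd h hp2
      have h4 : p % 4 = 1 ∨ p % 4 = 3 := by omega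
      rcases h4 with h4 | h4
      · have h8 := (hjp p hpp hpD h4).2 hpe
        rw [hdiv] at h8
        exact le_A hD0 hDZ (usq _ hpD' h8)
      · rcases pm _ hpD' h4 with h | h
        · exact le_A hD0 hDZ h
        · exact le_B hD0 hDZ h
    · have hpe' : ¬ (p : ℤ) ∣ (e : ℤ) := by intro hc; exact hpe (by exact_mod_cast hc)
      by_cases hp3 : p % 4 = 3
      · rcases pm _ hpe' hp3 with h | h
        · exact le_sq h
        · exact le_abs hD0 (ab2.trans ab1.symm) (le_sq h)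
      by_cases hpD : p ∣ D
      · have h4 : p % 4 = 1 := by
          rcases hpp.eq_two_or_odd with h | h
          · exact absurd h hp2
          · omega
        exact le_sq (usq _ hpe' ((hjp p hpp hpD h4).1 hpe))
      by_cases hp5 : p = 5
      · subst hp5
        exact le_sq (usq _ hpe' hj5)
      have hpD' : ¬ (p : ℤ) ∣ (D' : ℤ) := by
        intro hc
        apply hpD
        rw [hDD]
        exact dvd_mul_of_dvd_right (by exact_mod_cast hc) _
      rcases at_good hp2 (by omega) hp5 hpe' hpD' with h | h | h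
      · exact le_sq h
      · exact le_B hD0 hDZ h
      · exact le_C hDZ heZ h
  · apply le_abs (s := (e : ℤ)) hD0 ab1
    apply le_sq
    refine ⟨Real.sqrt e, ?_⟩
    rw [Real.mul_self_sqrt (by positivity)]
    simp

/-- the condition at `p` in the form of the library -/
lemma toLN {p : ℕ} [Fact p.Prime] {D d : ℤ} (hd : d ≠ 0) (h : LE ℚ_[p] D d) : LN D d p := by
  have hd' : (d : ℚ_[p]) ≠ 0 := Int.cast_ne_zero.2 hd
  rcases h with h | ⟨c, hc⟩ | ⟨X, Y, hX, hXY, c, hc⟩
  · exact Or.inl h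
  · right; left
    refine ⟨c, ?_⟩
    rw [← hc]
    push_cast
    ring
  · right; right
    refine ⟨X, Y, c / d, hX, ?_, ?_⟩
    · rw [hXY]
      push_cast
      ring
    · field_simp
      linear_combination hc

lemma necc (h1 : D ≠ 1) (hs : Squarefree D) (hm : Fm D) {d : ℤ} (hd : Squarefree d)
    (h : ∀ (p : ℕ) [Fact p.Prime], LE ℚ_[p] D d) : InV D d.natAbs := by
  have hD1 : 1 < D := by
    have := hs.ne_zero
    omega
  refine Pool.Agent.H487.I.C3.nec ?_ ?_ ?_ ?_ ?_ hD1 hs hm hd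
    (fun p _ => toLN hd.ne_zero (h p))
  · intro D d p _ h2 h3 h5 h6 h7 h8
    exact Pool.Agent.H487.I.C1.nec_good h2 h3 h5 h6 h7 h8
  · intro D d h2 h3 h4 h5
    exact Pool.Agent.H487.I.C1.nec_3 h2 h3 h4 h5
  · intro D d h2 h3 h4 h5
    exact Pool.Agent.H487.I.C1.nec_2 h2 h3 h4 h5
  · intro D d h2 h3 h4 h5
    exact Pool.Agent.H487.I.C2.nec_5 h2 h3 h4 h5
  · intro D D' d p _ h2 h3 h4 h5 h6 h7
    exact Pool.Agent.H487.I.C2.nec_p h2 h3 h4 h5 h6 h7

end

end Pool.Agent.H468.ISG
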